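import Mathlib
import Pool.Agent.X56.ParentTree

/-!
# Domination versus lower irredundance in trees

For every `m` there is a tree with domination number at least `3m + 2` and lower irredundance
number at most `2m + 2`. Hence `γ(T) / ir(T)` can exceed `5/4` and its supremum over trees is at
least `3/2`.
-/

set_option autoImplicit false

namespace Pool.Agent.Results.MP_180bcc_co.SpineTrees

open Pool.Agent.X56

/-- `D` is a dominating set: every vertex lies in `D` or has a neighbour in `D`. -/
def IsDominating {V : Type*} (G : SimpleGraph V) (D : Finset V) : Prop :=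
  ∀ v, ∃ d ∈ D, v = d ∨ G.Adj d v

/-- The domination number. -/
noncomputable def domNum {V : Type*} (G : SimpleGraph V) : ℕ :=
  sInf {m | ∃ D : Finset V, IsDominating G D ∧ D.card = m}

/-- `w` is a private neighbour of `v` with respect to `S`: it lies in the closed neighbourhood of
`v` and in no closed neighbourhood of another vertex of `S`. -/
def IsPrivate {V : Type*} (G : SimpleGraph V) (S : Finset V) (v w : V) : Prop :=
  (w = v ∨ G.Adj v w) ∧ ∀ u ∈ S, u ≠ v → ¬ (w = u ∨ G.Adj u w)

/-- `S` is irredundant. -/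
def IsIrredundant {V : Type*} (G : SimpleGraph V) (S : Finset V) : Prop :=
  ∀ v ∈ S, ∃ w, IsPrivate G S v w

/-- `S` is a maximal irredundant set. -/
def IsMaxIrredundant {V : Type*} (G : SimpleGraph V) (S : Finset V) : Prop :=
  IsIrredundant G S ∧ ∀ T : Finset V, S ⊂ T → ¬ IsIrredundant G T

/-- The lower irredundance number. -/
noncomputable def irNum {V : Type*} (G : SimpleGraph V) : ℕ :=
  sInf {m | ∃ S : Finset V, IsMaxIrredundant G S ∧ S.card = m}

variable (m : ℕ)

/-- Vertices: the spine `0, …, 3m+1`; and for `j ≤ m`, `b < 2` a vertex `y j b` and a leaf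
`l j b`. -/
abbrev Vtx : Type := Fin (3 * m + 2) ⊕ ((Fin (m + 1) × Fin 2) ⊕ (Fin (m + 1) × Fin 2))

variable {m}

/-- Spine vertex. -/
abbrev sv (i : ℕ) (h : i < 3 * m + 2) : Vtx m := Sum.inl ⟨i, h⟩

/-- The vertex `y`. -/
abbrev yv (p : Fin (m + 1) × Fin 2) : Vtx m := Sum.inr (Sum.inl p)

/-- The leaf. -/
abbrev lv (p : Fin (m + 1) × Fin 2) : Vtx m := Sum.inr (Sum.inr p)

/-- The spine index of the neighbour of `y p`. -/
def ix (p : Fin (m + 1) × Fin 2) : ℕ := 3 * p.1.val + p.2.val

lemma ix_lt (p : Fin (m + 1) × Fin 2) : ix p < 3 * m + 2 := by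
  have h1 := p.1.2
  have h2 := p.2.2
  unfold ix
  omega

/-- The parent function. -/
def par : Vtx m → Vtx m
  | Sum.inl i => sv (i.val - 1) (by omega)
  | Sum.inr (Sum.inl p) => sv (ix p) (ix_lt p)
  | Sum.inr (Sum.inr p) => yv p

/-- The rank function. -/
def rk : Vtx m → ℕ
  | Sum.inl i => i.val
  | Sum.inr (Sum.inl _) => 3 * m + 2
  | Sum.inr (Sum.inr _) => 3 * m + 3

lemma rk_par (v : Vtx m) (hv : v ≠ sv 0 (by omega)) : rk (par v) < rk v := by
  rcases v with i | p | p
  · have : i.val ≠ 0 := by
      intro h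
      apply hv
      exact congrArg Sum.inl (Fin.ext h)
    show i.val - 1 < i.val
    omega
  · exact ix_lt p
  · show 3 * m + 2 < 3 * m + 3
    omega

/-- The tree. -/
def tree (m : ℕ) : SimpleGraph (Vtx m) := parentGraph (sv 0 (by omega)) par rk rk_par

lemma adj_iff {u v : Vtx m} : (tree m).Adj u v ↔
    (u ≠ sv 0 (by omega) ∧ par u = v) ∨ (v ≠ sv 0 (by omega) ∧ par v = u) := Iff.rfl

lemma adj_ss {i j : ℕ} {hi : i < 3 * m + 2} {hj : j < 3 * m + 2} :
    (tree m).Adj (sv i hi) (sv j hj) ↔ i = j + 1 ∨ j = i + 1 := by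
  rw [adj_iff]
  simp only [par, sv, ne_eq, Sum.inl.injEq, Fin.mk.injEq]
  omega

lemma adj_sy {i : ℕ} {hi : i < 3 * m + 2} {p : Fin (m + 1) × Fin 2} :
    (tree m).Adj (sv i hi) (yv p) ↔ i = ix p := by
  rw [adj_iff]
  simp only [par, sv, yv, ne_eq, Sum.inl.injEq, Fin.mk.injEq, reduceCtorEq, and_false,
    not_false_eq_true, true_and, false_or]
  exact eq_comm

lemma adj_sl {i : ℕ} {hi : i < 3 * m + 2} {p : Fin (m + 1) × Fin 2} :
    ¬ (tree m).Adj (sv i hi) (lv p) := by
  rw [adj_iff]
  simp [par, sv, yv]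

lemma adj_yy {p q : Fin (m + 1) × Fin 2} : ¬ (tree m).Adj (yv p) (yv q) := by
  rw [adj_iff]
  simp [par, sv, yv]

lemma adj_yl {p q : Fin (m + 1) × Fin 2} : (tree m).Adj (yv p) (lv q) ↔ p = q := by
  rw [adj_iff]
  simp only [par, sv, yv, lv, ne_eq, reduceCtorEq, not_false_eq_true, true_and, false_or,
    Sum.inr.injEq, Sum.inl.injEq]
  exact eq_comm

lemma adj_ll {p q : Fin (m + 1) × Fin 2} : ¬ (tree m).Adj (lv p) (lv q) := by
  rw [adj_iff]
  simp [par, yv]

lemma dom_lower (D : Finset (Vtx m)) (hD : IsDominating (tree m) D) : 3 * m + 2 ≤ D.card := by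
  classical
  let φ : Vtx m → (Fin (m + 1) × Fin 2) ⊕ ℕ := fun v =>
    match v with
    | Sum.inl i => Sum.inr ((i.val - 1) / 3)
    | Sum.inr (Sum.inl p) => Sum.inl p
    | Sum.inr (Sum.inr p) => Sum.inl p
  have hsub : (Finset.univ.image (Sum.inl : Fin (m + 1) × Fin 2 → _) ∪
      (Finset.range m).image (Sum.inr : ℕ → (Fin (m + 1) × Fin 2) ⊕ ℕ)) ⊆ D.image φ := by
    intro x hx
    rcases Finset.mem_union.1 hx with hx | hx
    · obtain ⟨p, _, rfl⟩ := Finset.mem_image.1 hx
      obtain ⟨d, hd, h⟩ := hD (lv p)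
      rw [Finset.mem_image]
      refine ⟨d, hd, ?_⟩
      rcases h with h | h
      · rw [← h]
      · rcases d with i | q | q
        · exact absurd h adj_sl
        · have := adj_yl.1 h
          rw [this]
        · exact absurd h adj_ll
    · obtain ⟨j, hj, rfl⟩ := Finset.mem_image.1 hx
      rw [Finset.mem_range] at hj
      obtain ⟨d, hd, h⟩ := hD (sv (3 * j + 2) (by omega))
      rw [Finset.mem_image]
      refine ⟨d, hd, ?_⟩
      rcases h with h | h
      · rw [← h]
        show Sum.inr ((3 * j + 2 - 1) / 3) = _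
        congr 1
        omega
      · rcases d with ⟨i, hi⟩ | q | q
        · have := adj_ss.1 h
          show Sum.inr ((i - 1) / 3) = _
          congr 1
          omega
        · exfalso
          have h1 := adj_sy.1 h.symm
          unfold ix at h1
          have := q.2.2
          omega
        · exact absurd h.symm adj_sl
  have h1 := (Finset.card_le_card hsub).trans Finset.card_image_le
  rw [Finset.card_union_of_disjoint, Finset.card_image_of_injective _ Sum.inl_injective,
    Finset.card_image_of_injective _ Sum.inr_injective] at h1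
  · simp only [Finset.card_univ, Fintype.card_prod, Fintype.card_fin, Finset.card_range] at h1
    omega
  · rw [Finset.disjoint_left]
    intro x hx hx'
    obtain ⟨l, _, rfl⟩ := Finset.mem_image.1 hx
    obtain ⟨r, _, h⟩ := Finset.mem_image.1 hx'
    cases h

lemma domNum_ge : 3 * m + 2 ≤ domNum (tree m) := by
  have hne : {k | ∃ D, IsDominating (tree m) D ∧ D.card = k}.Nonempty :=
    ⟨_, Finset.univ, fun v => ⟨v, Finset.mem_univ _, Or.inl rfl⟩, rfl⟩
  obtain ⟨D, hD, hc⟩ := Nat.sInf_mem hne
  unfold domNum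
  rw [← hc]
  exact dom_lower D hD

/-- The maximal irredundant set: the spine vertices with a neighbour `y`. -/
def X (m : ℕ) : Finset (Vtx m) := Finset.univ.image (fun p => sv (ix p) (ix_lt p))

lemma mem_X {v : Vtx m} : v ∈ X m ↔ ∃ p, sv (ix p) (ix_lt p) = v := by
  simp [X]

lemma ix_inj {p q : Fin (m + 1) × Fin 2} (h : ix p = ix q) : p = q := by
  unfold ix at h
  have h1 := p.2.2
  have h2 := q.2.2
  apply Prod.ext
  · apply Fin.ext; omega
  · apply Fin.ext; omega

lemma X_card_le : (X m).card ≤ 2 * m + 2 := by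
  refine Finset.card_image_le.trans ?_
  simp only [Finset.card_univ, Fintype.card_prod, Fintype.card_fin]
  omega

lemma sv_mem_X {i : ℕ} {hi : i < 3 * m + 2} (h : i % 3 ≠ 2) : sv i hi ∈ X m := by
  rw [mem_X]
  refine ⟨(⟨i / 3, by omega⟩, ⟨i % 3, by omega⟩), ?_⟩
  apply congrArg Sum.inl
  apply Fin.ext
  show 3 * (i / 3) + i % 3 = i
  omega

lemma X_irr : IsIrredundant (tree m) (X m) := by
  intro v hv
  obtain ⟨p, rfl⟩ := mem_X.1 hv
  refine ⟨yv p, Or.inr (adj_sy.2 rfl), ?_⟩
  intro u hu hne h
  obtain ⟨q, rfl⟩ := mem_X.1 hu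
  rcases h with h | h
  · cases h
  · apply hne
    have := adj_sy.1 h
    have h2 := ix_inj this
    rw [h2]

lemma X_max : IsMaxIrredundant (tree m) (X m) := by
  refine ⟨X_irr, ?_⟩
  intro T hXT hT
  obtain ⟨hsub, hnot⟩ := hXT
  obtain ⟨v, hvT, hvX⟩ : ∃ v ∈ T, v ∉ X m := by
    by_contra hcon
    push Not at hcon
    exact hnot (fun x hx => hcon x hx)
  -- any vertex `x = s (ix p)` loses its private neighbours when `y p` is dominated by `v`
  have key : ∀ p : Fin (m + 1) × Fin 2, (yv p = v ∨ (tree m).Adj v (yv p)) → False := by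
    intro p hp
    have hxX : sv (ix p) (ix_lt p) ∈ X m := mem_X.2 ⟨p, rfl⟩
    obtain ⟨w, hw, hpriv⟩ := hT _ (hsub hxX)
    have hb := p.2.2
    have hj := p.1.2
    -- the partner
    have hpart : ∃ i, ∃ hi : i < 3 * m + 2, i % 3 ≠ 2 ∧ i ≠ ix p ∧
        (tree m).Adj (sv i hi) (sv (ix p) (ix_lt p)) := by
      by_cases hb0 : p.2.val = 0
      · refine ⟨3 * p.1.val + 1, by omega, by omega, by unfold ix; omega, ?_⟩
        rw [adj_ss]; unfold ix; omega
      · refine ⟨3 * p.1.val, by omega, by omega, by unfold ix; omega, ?_⟩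
        rw [adj_ss]; unfold ix; omega
    obtain ⟨i, hi, hi3, hine, hiadj⟩ := hpart
    have hiT : sv i hi ∈ T := hsub (sv_mem_X hi3)
    have hine' : sv i hi ≠ sv (ix p) (ix_lt p) := by
      intro h
      exact hine (Fin.mk.inj (Sum.inl.inj h))
    rcases hw with hw | hw
    · -- `w = x`
      exact hpriv _ hiT hine' (Or.inr (by rw [hw]; exact hiadj))
    · rcases w with ⟨j, hj'⟩ | q | q
      · -- spine neighbour
        have h1 := adj_ss.1 hw
        by_cases h3 : j % 3 = 2
        · -- a vertex with two neighbours in `X`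
          rcases h1 with h1 | h1
          · -- `j + 1 = ix p`; the other neighbour is `j - 1`
            refine hpriv (sv (j - 1) (by omega)) (hsub (sv_mem_X (by omega))) ?_ (Or.inr ?_)
            · intro h
              have := Fin.mk.inj (Sum.inl.inj h)
              omega
            · rw [adj_ss]; omega
          · refine hpriv (sv (j + 1) (by omega)) (hsub (sv_mem_X (by omega))) ?_ (Or.inr ?_)
            · intro h
              have := Fin.mk.inj (Sum.inl.inj h)
              omega
            · rw [adj_ss]; omega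
        · -- a vertex of `X`
          refine hpriv (sv j hj') (hsub (sv_mem_X h3)) ?_ (Or.inl rfl)
          intro h
          have := Fin.mk.inj (Sum.inl.inj h)
          omega
      · -- `w = y p`
        have h1 := adj_sy.1 hw
        have h2 := ix_inj h1
        subst h2
        refine hpriv v hvT ?_ hp
        intro h
        rw [h] at hvX
        exact hvX hxX
      · exact adj_sl hw
  rcases v with ⟨i, hi⟩ | p | p
  · -- a spine vertex outside `X`
    have h3 : i % 3 = 2 := by
      by_contra h
      exact hvX (sv_mem_X h)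
    obtain ⟨w, hw, hpriv⟩ := hT _ hvT
    have hprev : sv (m := m) (i - 1) (by omega) ∈ T := hsub (sv_mem_X (by omega))
    have hnext : sv (m := m) (i + 1) (by omega) ∈ T := hsub (sv_mem_X (by omega))
    have hne1 : sv (m := m) (i - 1) (by omega) ≠ sv i hi := by
      intro h
      have := Fin.mk.inj (Sum.inl.inj h)
      omega
    have hne2 : sv (m := m) (i + 1) (by omega) ≠ sv i hi := by
      intro h
      have := Fin.mk.inj (Sum.inl.inj h)
      omega
    rcases hw with hw | hw
    · refine hpriv _ hprev hne1 (Or.inr ?_)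
      rw [hw, adj_ss]; omega
    · rcases w with ⟨j, hj⟩ | q | q
      · have h1 := adj_ss.1 hw
        rcases h1 with h1 | h1
        · refine hpriv _ hprev hne1 (Or.inl ?_)
          apply congrArg Sum.inl
          apply Fin.ext
          show j = i - 1
          omega
        · refine hpriv _ hnext hne2 (Or.inl ?_)
          apply congrArg Sum.inl
          apply Fin.ext
          show j = i + 1
          omega
      · have h1 := adj_sy.1 hw
        unfold ix at h1
        have := q.2.2
        omega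
      · exact adj_sl hw
  · exact key p (Or.inl rfl)
  · exact key p (Or.inr (adj_yl.2 rfl).symm)

lemma irNum_le : irNum (tree m) ≤ 2 * m + 2 := by
  refine le_trans (Nat.sInf_le ?_) (X_card_le (m := m))
  exact ⟨X m, X_max, rfl⟩

/-- For every `m` there is a tree `T` with `γ(T) ≥ 3m + 2` and `ir(T) ≤ 2m + 2`; in particular
some tree has `γ(T) > (5/4) ir(T)`. -/
theorem result :
    (∀ m : ℕ, ∃ (V : Type) (_ : Fintype V) (T : SimpleGraph V), T.IsTree ∧
      3 * m + 2 ≤ domNum T ∧ irNum T ≤ 2 * m + 2) ∧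
    (∃ (V : Type) (_ : Fintype V) (T : SimpleGraph V), T.IsTree ∧
      5 * irNum T < 4 * domNum T) := by
  refine ⟨?_, ?_⟩
  · intro m
    exact ⟨Vtx m, inferInstance, tree m, parentGraph_isTree, domNum_ge, irNum_le⟩
  refine ⟨Vtx 2, inferInstance, tree 2, parentGraph_isTree, ?_⟩
  have h1 := domNum_ge (m := 2)
  have h2 := irNum_le (m := 2)
  omega

end Pool.Agent.Results.MP_180bcc_co.SpineTrees
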